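import Pool.Agent.T63.MK.Helly

/-!
# Measures invariant under the affine holonomy of closed affine manifolds with parallel volume

A closed affine manifold `M` with parallel volume is given by a cover `X` with its group `Γ`, developing
map `dev : X → E` and holonomy `hol` (`AffData`). Let `Γ` act on a measure space `(Y, ν)`, `ν ≠ 0`, preserving
`ν`, and let `F : Y → E` be a measurable map which is equivariant with respect to the affine holonomy,
almost everywhere. We show that the preimage of EVERY half-space of `E` has infinite measure. In
particular (`Y = E`): a nonzero Borel measure on the affine space which is invariant under the affine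
holonomy is infinite on every half-space; so there is no finite invariant measure, and the developing
image, and its complement unless it is a null set, have infinite volume in every half-space. Another
example is `Y = X`, `F = dev`, `ν` the lift of any measure on `M`.

Proof. By the starting library (`W689/Mk`) the affine holonomy has no proper invariant convex subset. If
some half-space had finite measure then for every `t > 0` there were half-spaces of measure at most `t`.
The intersection of their complements is convex, invariant and proper, and so it is empty. By Helly's
theorem `n + 1` of these half-spaces cover a given ball, so that its measure is at most `(n + 1) t`.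
-/

set_option autoImplicit false

namespace Pool.Agent.Results.MP_df2bd8_gt.HalfSpacesOfInfiniteMeasure

open MeasureTheory Set
open Pool.Agent.W689.Mk
open scoped ENNReal

/-- **Equivariant maps into the affine space: preimages of half-spaces have infinite measure.** Let a closed
affine manifold with parallel volume be given by a cover `X` with its group `Γ`, developing map `dev` and
holonomy `hol`. Let `Γ` act on a measurable space `Y` with a measure `ν ≠ 0` which it preserves, and let
`F : Y → E` be measurable with `F (γ y) = hol γ (F y)` for almost all `y`, for all `γ`. Then the preimage of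
every open half-space `{a < φ}` has infinite measure. -/
theorem result (E X Γ : Type) [NormedAddCommGroup E] [NormedSpace ℝ E] [FiniteDimensional ℝ E]
    [MeasurableSpace E] [BorelSpace E]
    [TopologicalSpace X] [T2Space X] [SecondCountableTopology X] [Nonempty X]
    [Group Γ] [MulAction Γ X] (dev : X → E) (hol : Γ →* (E ≃ᵃ[ℝ] E))
    (D : AffData X Γ E dev hol)
    (Y : Type) [MeasurableSpace Y] [MulAction Γ Y] (ν : Measure Y) (hν : ν ≠ 0)
    (hpres : ∀ γ : Γ, MeasurePreserving (fun y : Y => γ • y) ν ν)
    (F : Y → E) (hF : Measurable F) (heq : ∀ γ : Γ, ∀ᵐ y ∂ν, F (γ • y) = hol γ (F y))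
    (φ : E →L[ℝ] ℝ) (a : ℝ) (hφ : φ ≠ 0) : ν {y | a < φ (F y)} = ∞ := by
  have h2 : ∀ μ : Measure E, μ ≠ 0 → (∀ γ : Γ, μ.map (hol γ) = μ) →
      ∀ (φ : E →L[ℝ] ℝ) (a : ℝ), φ ≠ 0 → μ {p | a < φ p} = ∞ := fun μ hμ hinv φ a hφ =>
    Pool.Agent.T63.MK.half_space D μ hμ hinv φ hφ a
  have hmeas : MeasurableSet {p : E | a < φ p} :=
    (isOpen_lt continuous_const φ.continuous).measurableSet
  have h3 := h2 (ν.map F) (by
    intro h4
    apply hν
    rw [← Measure.measure_univ_eq_zero]
    have h5 := Measure.map_apply hF (μ := ν) MeasurableSet.univ
    rw [h4] at h5
    simpa using h5.symm) (by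
    intro γ
    rw [Measure.map_map (hol_cont γ).measurable hF]
    have h4 : (hol γ ∘ F) =ᵐ[ν] (F ∘ fun y : Y => γ • y) := by
      filter_upwards [heq γ] with y hy
      exact hy.symm
    rw [Measure.map_congr h4, ← Measure.map_map hF (hpres γ).measurable, (hpres γ).map_eq]) φ a hφ
  rw [Measure.map_apply hF hmeas] at h3
  exact h3

end Pool.Agent.Results.MP_df2bd8_gt.HalfSpacesOfInfiniteMeasure
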