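import Pool.Agent.Helper23N.Cases

set_option autoImplicit false

open Pool.Agent.W689.Mk

namespace Pool.Agent.Results.MP_df2bd8_gt.ProperLinearHolonomy

/-- `C` is a sharp open convex cone: it is nonempty, open, convex, invariant under dilations, and
its closure contains no line through the origin. -/
def SharpCone {E : Type} [NormedAddCommGroup E] [NormedSpace ℝ E] (C : Set E) : Prop :=
  IsOpen C ∧ Convex ℝ C ∧ (∀ v ∈ C, ∀ t : ℝ, 0 < t → t • v ∈ C) ∧ C.Nonempty ∧
    ∀ v, v ∈ closure C → -v ∈ closure C → v = 0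

/-- (a) The linear holonomy is not proper: for some constant `c` there are infinitely many elements
of `Γ` whose linear holonomy is bounded by `c` (for example because its kernel is infinite or its
image is not discrete). -/
def NotProper {Γ E : Type} [Group Γ] [NormedAddCommGroup E] [NormedSpace ℝ E]
    (hol : Γ →* (E ≃ᵃ[ℝ] E)) : Prop :=
  ∃ c : ℝ, {γ : Γ | ∀ v : E, ‖(hol γ).linear v‖ ≤ c * ‖v‖}.Infinite

/-- (b) The linear holonomy of some subgroup of finite index preserves a sharp convex cone. -/
def PreservesCone {Γ E : Type} [Group Γ] [NormedAddCommGroup E] [NormedSpace ℝ E]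
    (hol : Γ →* (E ≃ᵃ[ℝ] E)) : Prop :=
  ∃ H : Subgroup Γ, H.FiniteIndex ∧ ∃ C : Set E, SharpCone C ∧
    ∀ γ ∈ H, ∀ v ∈ C, (hol γ).linear v ∈ C

/-- (c) The group has an infinite solvable normal subgroup. -/
def HasSolvableNormal (Γ : Type) [Group Γ] : Prop :=
  ∃ N : Subgroup Γ, N.Normal ∧ Group.IsSolvable N ∧ (N : Set Γ).Infinite

/-- Let a closed affine manifold (or orbifold) with parallel volume, of odd dimension `n ≥ 3`, be
given by a connected cover `X` with its group `Γ`, developing map `dev` and holonomy `hol`, and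
assume that `dev` is injective, so that the manifold is a quotient `Γ \ Ω` of a domain `Ω` of affine
space. Suppose that (a) the linear holonomy is not proper, or (b) it preserves a sharp convex cone
(up to finite index), or (c) the group has an infinite solvable normal subgroup.

Then the structure is complete, or `n ≥ 5` and the linear holonomy of some subgroup of finite index
preserves a proper nonzero linear subspace. In particular, the Markus conjecture holds in dimension
three under each of these assumptions. -/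
theorem result (E X Γ : Type) [NormedAddCommGroup E] [NormedSpace ℝ E] [FiniteDimensional ℝ E]
    [TopologicalSpace X] [T2Space X] [SecondCountableTopology X] [ConnectedSpace X]
    [Group Γ] [MulAction Γ X] (dev : X → E) (hol : Γ →* (E ≃ᵃ[ℝ] E))
    (D : AffData X Γ E dev hol) (hinj : Function.Injective dev)
    (hodd : Odd (Module.finrank ℝ E)) (hdim : 3 ≤ Module.finrank ℝ E)
    (h : NotProper hol ∨ PreservesCone hol ∨ HasSolvableNormal Γ) :
    IsHomeomorph dev ∨ (5 ≤ Module.finrank ℝ E ∧ ∃ H : Subgroup Γ, H.FiniteIndex ∧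
      ∃ W : Submodule ℝ E, W ≠ ⊥ ∧ W ≠ ⊤ ∧ ∀ γ ∈ H, ∀ v ∈ W, (hol γ).linear v ∈ W) := by
  have key : ∃ H : Subgroup Γ, H.FiniteIndex ∧ ∃ W : Submodule ℝ E, W ≠ ⊥ ∧ W ≠ ⊤ ∧
      ∀ γ ∈ H, ∀ v ∈ W, (hol γ).linear v ∈ W := by
    by_contra hcon
    push Not at hcon
    have hirr : Pool.Agent.Helper23N.VIrr hol := fun H hH W hW0 hW1 => hcon H hH W hW0 hW1
    rcases h with ⟨c, hc⟩ | ⟨H, hH, C, ⟨h1, h2, h3, h4, h5⟩, hCH⟩ | ⟨N, hN, hsol, hinf⟩
    · refine hc ((Pool.Agent.Helper23N.proper_of_irr D hinj hodd (by omega) hirr |c|).subset ?_)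
      intro γ hγ
      refine ContinuousLinearMap.opNorm_le_bound _ (abs_nonneg c) fun v => ?_
      exact (hγ v).trans (mul_le_mul_of_nonneg_right (le_abs_self c) (norm_nonneg v))
    · exact Pool.Agent.Helper23N.no_cone_of_irr D hinj hodd (by omega) hirr H hH
        ⟨h1, h2, h3, h4, h5⟩ hCH
    · exact hinf (Pool.Agent.Helper23N.finite_of_solvable D hinj hodd (by omega) hirr N hN hsol)
  by_cases h3 : Module.finrank ℝ E = 3
  · left
    obtain ⟨H, hH, W, hW0, hW1, hW⟩ := key
    exact Pool.Agent.Helper23M.reducible D hinj h3 H hH W hW0 hW1 hW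
  · right
    refine ⟨?_, key⟩
    rcases hodd with ⟨k, hk⟩
    omega

end Pool.Agent.Results.MP_df2bd8_gt.ProperLinearHolonomy
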