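import Pool.Agent.Helper23M.Main

set_option autoImplicit false

open Pool.Agent.W689.Mk

namespace Pool.Agent.Results.MP_df2bd8_gt.ReducibleDimensionThree

/-- The Markus conjecture in dimension three for reducible linear holonomy and injective developing
map.

A closed affine manifold (or orbifold) with parallel volume is given by a connected cover `X` with
its group `Γ`, developing map `dev` and holonomy `hol` (`AffData`: `dev` is an equivariant local
homeomorphism, the linear holonomy has determinant `± 1`, the action of `Γ` on `X` is properly
discontinuous with compact quotient). Assume that the dimension is three and that `dev` is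
injective, so that the manifold is a quotient `Γ \ Ω` of a domain `Ω` of affine space.

If the linear holonomy of some subgroup `H` of finite index preserves a linear subspace `W` which
is neither `0` nor everything (a parallel foliation of a finite cover by lines or by planes), then
the structure is complete: `dev` is a homeomorphism, `Ω` is the whole space. -/
theorem result (E X Γ : Type) [NormedAddCommGroup E] [NormedSpace ℝ E] [FiniteDimensional ℝ E]
    [TopologicalSpace X] [T2Space X] [SecondCountableTopology X] [ConnectedSpace X]
    [Group Γ] [MulAction Γ X] (dev : X → E) (hol : Γ →* (E ≃ᵃ[ℝ] E))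
    (D : AffData X Γ E dev hol) (hinj : Function.Injective dev)
    (hdim : Module.finrank ℝ E = 3) (H : Subgroup Γ) (hH : H.FiniteIndex)
    (W : Submodule ℝ E) (hW0 : W ≠ ⊥) (hW1 : W ≠ ⊤)
    (hW : ∀ γ ∈ H, ∀ v ∈ W, (hol γ).linear v ∈ W) : IsHomeomorph dev :=
  Pool.Agent.Helper23M.reducible D hinj hdim H hH W hW0 hW1 hW

end Pool.Agent.Results.MP_df2bd8_gt.ReducibleDimensionThree
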