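import Pool.Agent.T63.MK.Helly

/-!
# Translates of convex sets under the affine holonomy of closed affine manifolds with parallel volume

A closed affine manifold of dimension `n` with parallel volume is given by a cover `X` with its group `Γ`,
developing map and holonomy (`AffData`). Let `B` be a convex subset of the affine space `E`, `B ≠ E`, for
example a half-space or a large ball. We show that for every compact set `Q` there are `n + 1` elements of
the affine holonomy such that the images of `B` have no common point in `Q`. So for every finite measure the
infimum over `Γ` of the measure of the images of `B` is at most `n / (n + 1)` times the total mass; for `B` a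
large ball: a proportion of the mass of at least about `1 / (n + 1)` escapes from every bounded set under
suitable elements of the holonomy. (For a single point this is the absence of proper invariant convex sets,
in the starting results.)

Proof. By the starting library (`W689/Mk`) the affine holonomy has no proper invariant convex subset, so the
intersection of all images of the closure of `B` is empty; by Helly's theorem and compactness `n + 1` images
have no common point in `Q`.
-/

set_option autoImplicit false

namespace Pool.Agent.Results.MP_df2bd8_gt.TranslatesOfConvexSets

open Set
open Pool.Agent.W689.Mk

/-- **Translates of convex sets.** Let a closed affine manifold with parallel volume be given by a cover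
`X` with its group `Γ`, developing map and holonomy `hol`; let `n` be the dimension, and let `B` be a convex
subset of the affine space, not the whole space. For every compact set `Q` there are `γ_0, …, γ_n` in `Γ` such
that the images of `B` under `hol γ_0, …, hol γ_n` have no common point in `Q`. -/
theorem result (E X Γ : Type) [NormedAddCommGroup E] [NormedSpace ℝ E] [FiniteDimensional ℝ E]
    [MeasurableSpace E] [BorelSpace E]
    [TopologicalSpace X] [T2Space X] [SecondCountableTopology X] [Nonempty X]
    [Group Γ] [MulAction Γ X] (dev : X → E) (hol : Γ →* (E ≃ᵃ[ℝ] E))
    (D : AffData X Γ E dev hol) (B : Set E) (hB : Convex ℝ B) (hBu : B ≠ univ)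
    (Q : Set E) (hQ : IsCompact Q) : ∃ s : Fin (Module.finrank ℝ E + 1) → Γ,
      Q ∩ ⋂ j, hol (s j) '' B = ∅ := by
  obtain ⟨s, hs⟩ := Pool.Agent.T63.MK.translates D hB hBu hQ
  refine ⟨s, subset_empty_iff.1 ?_⟩
  rw [← hs]
  exact inter_subset_inter_right _ (iInter_mono fun j => image_mono subset_closure)

end Pool.Agent.Results.MP_df2bd8_gt.TranslatesOfConvexSets
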